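import Mathlib
import Pool.Agent.H933R3.EvB
import Pool.Agent.H933R3.LCcheck

set_option autoImplicit false

/-!
# A locally constructible evasive 3-ball

The ball has 13 vertices and 55 facets; its boundary is the boundary of a tetrahedron, and
three of its interior edges form a knotted triangle.
-/

namespace Pool.Agent.Results.MP_1acbfe_co.EvasiveLCBall

open Finset Pool.Agent.H933R3 Pool.Agent.Helper175.NS

/-- a local construction: `(F, F', 0)` attaches `F'` to `F`, and `(F, F', A)` identifies the two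
copies of `F ∩ F'`, which share `A` -/
def lcSeq : List (ℕ × ℕ × ℕ) := [
  (2313, 2328, 0), (2313, 2061, 0), (2313, 329, 0), (329, 1345, 0), (329, 75, 0), (1345, 1601, 0),
  (75, 4170, 0), (1601, 1553, 0), (329, 4424, 0), (2328, 2322, 0), (1553, 3600, 0),
  (2061, 6149, 0), (4170, 5130, 0), (2322, 2434, 0), (6149, 6177, 0), (2434, 1410, 0),
  (3600, 2578, 0), (6177, 6180, 0), (4424, 4448, 0), (4170, 4290, 0), (4448, 4208, 0),
  (1553, 531, 0), (2313, 2433, 0), (531, 579, 0), (2433, 1409, 0), (4208, 4145, 0),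
  (1410, 5250, 0), (6177, 2209, 0), (5130, 1038, 0), (2434, 2242, 0), (4448, 1376, 0),
  (1410, 1286, 0), (6180, 4388, 0), (1038, 1068, 0), (3600, 3152, 0), (4388, 1316, 0),
  (1376, 1136, 0), (3152, 3648, 0), (2328, 4376, 0), (6149, 4117, 0), (1136, 1073, 0),
  (2322, 278, 0), (4376, 4372, 0), (4290, 4304, 0), (3648, 2626, 0), (5250, 5256, 0),
  (2328, 2200, 0), (4376, 4248, 0), (1068, 2092, 0), (531, 23, 0), (1073, 1185, 0),
  (2092, 2216, 0), (3152, 2256, 0), (1185, 1192, 0), (6149, 6180, 6144), (278, 1286, 258),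
  (4376, 4424, 264), (3600, 3648, 3072), (2578, 2626, 2560), (1136, 4208, 96), (1073, 4145, 48),
  (1601, 3648, 1536), (2200, 4248, 24), (531, 2578, 528), (579, 2626, 514), (579, 1601, 576),
  (1345, 1409, 257), (2209, 2433, 2049), (2433, 2434, 2304), (4170, 4424, 72), (1345, 1376, 320),
  (75, 579, 65), (1409, 1410, 384), (278, 4372, 272), (1136, 3152, 1088), (4208, 4304, 4160),
  (2256, 4304, 80), (1073, 1553, 1040), (1185, 1409, 1025), (1192, 5256, 1152), (1185, 2209, 129),
  (4145, 6177, 33), (4388, 4448, 4128), (1316, 1376, 288), (4117, 4145, 4097), (4372, 4388, 4352),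
  (1286, 1316, 260), (4117, 4372, 4100), (23, 4117, 17), (4248, 4304, 4112), (23, 278, 20),
  (2322, 2578, 18), (2242, 2626, 2050), (2242, 2256, 2112), (2242, 4290, 192), (2200, 2256, 144),
  (4290, 5250, 130), (4248, 5256, 4224), (5130, 5250, 4098), (5130, 5256, 5120),
  (1068, 1192, 1032), (1068, 1316, 1056), (1038, 1286, 1028), (2092, 6180, 36), (1192, 2216, 40),
  (2209, 2216, 160), (2200, 2216, 2176), (2061, 2092, 2052)]

def backMoves : List (ℕ × ℕ) := [
  (6144, 37), (5120, 138), (4097, 52), (3072, 592), (4098, 200), (1536, 81), (4224, 88),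
  (2052, 41), (2080, 137), (1040, 97), (1088, 289), (4100, 304), (513, 82), (512, 2130),
  (2112, 146), (160, 1033), (40, 1029), (192, 26), (144, 2058), (1056, 261), (2064, 266),
  (4104, 336), (4096, 368), (24, 322), (36, 273), (32, 337), (80, 259), (64, 267), (16, 263),
  (2049, 392), (2048, 394), (130, 1288), (128, 1289), (1026, 268), (1024, 269), (256, 15)]

/-- the example -/
def K0 : Finset (Finset (Fin 13)) := cx 13 Bm

theorem isCx_K0 : IsCx K0 := isCx_cx (by decide)

theorem ball_K0 : IsBall 3 K0 := by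
  have h : chainN Bm backMoves [15] = true := by decide +kernel
  exact isBall_of_chain (by norm_num) Bm_small h (by decide +kernel)

theorem evasive_K0 : ¬ NonEvasive K0 := evasive_B 13 le_rfl

set_option maxRecDepth 100000 in
theorem check_K0 : checkLC 13 3 Bm (bitset (faceMasks 13 Bm)) (2 ^ 2313, 0) lcSeq = true := by
  decide +kernel

theorem isLC_K0 : IsLC 3 K0 :=
  isLC_of_check (by decide +kernel) (by decide +kernel) (by decide) check_K0

/-- There is a triangulated 3-ball that is locally constructible and evasive. -/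
theorem result : ∃ (n : ℕ) (K : Finset (Finset (Fin n))),
    IsCx K ∧ IsBall 3 K ∧ IsLC 3 K ∧ ¬ NonEvasive K :=
  ⟨13, K0, isCx_K0, ball_K0, isLC_K0, evasive_K0⟩

end Pool.Agent.Results.MP_1acbfe_co.EvasiveLCBall
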